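import Mathlib
import Pool.Agent.N229.RL.Main

/-!
# Polynomials with independent random roots are hyperbolic

The roots are independent, not necessarily identically distributed, with laws of bounded density
and bounded support; the leading coefficient is arbitrary. If zero is a regular value of the mean
of `log |T|` and not its value at the origin, then the polynomial `T` is hyperbolic outside an
event of probability `O (log (N) ^ 4 / N)`.
-/

set_option autoImplicit false

open Polynomial Filter Topology MeasureTheory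

namespace Pool.Agent.Results.MP_28f8a1_an.IndependentRoots

/-- The polynomial as a self-map of the plane. -/
def map (T : ℂ[X]) : ℂ → ℂ := fun w : ℂ => T.eval w

/-- The orbit of `z` escapes to infinity. -/
def Escapes (T : ℂ[X]) (z : ℂ) : Prop :=
  Tendsto (fun k : ℕ => ‖(map T)^[k] z‖) atTop atTop

/-- The orbit of `z` is attracted by a sink (attracting periodic point) of `T`. -/
def Attracted (T : ℂ[X]) (z : ℂ) : Prop :=
  ∃ n : ℕ, 0 < n ∧ ∃ x : ℂ, (map T)^[n] x = x ∧ ‖deriv ((map T)^[n]) x‖ < 1 ∧
    Tendsto (fun k : ℕ => (map T)^[n * k] z) atTop (𝓝 x)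

/-- `T` is hyperbolic: every critical point escapes or is attracted by a sink. -/
def Hyperbolic (T : ℂ[X]) : Prop :=
  ∀ c : ℂ, (derivative T).eval c = 0 → Escapes T c ∨ Attracted T c

/-- The polynomial with leading coefficient `a` and roots `z i`. -/
noncomputable def withRoots {N : ℕ} (a : ℂ) (z : Fin N → ℂ) : ℂ[X] := C a * ∏ i, (X - C (z i))

/-- The laws of the roots: probability measures with density at most `D` (with respect to the area)
and support in the disc `|z| ≤ R`. -/
structure Law (D R : ℝ) (μ : Measure ℂ) : Prop where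
  prob : IsProbabilityMeasure μ
  density : ∀ B : Set ℂ, MeasurableSet B → μ B ≤ ENNReal.ofReal D * volume B
  support : μ (Metric.closedBall (0 : ℂ) R)ᶜ = 0

/-- The logarithmic potential. -/
noncomputable def potential (μ : Measure ℂ) (z : ℂ) : ℝ := ∫ w, Real.log ‖z - w‖ ∂μ

/-- The Cauchy transform (twice the complex derivative of the potential). -/
noncomputable def cauchy (μ : Measure ℂ) (z : ℂ) : ℂ := ∫ w, (z - w)⁻¹ ∂μ

/-- The mean of `log |T z|`, `T = withRoots a (roots)`, for independent roots of the laws `μ i`. -/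
noncomputable def meanLog {N : ℕ} (μ : Fin N → Measure ℂ) (a z : ℂ) : ℝ :=
  Real.log ‖a‖ + ∑ i, potential (μ i) z

/-- The mean of `T' z / T z`. -/
noncomputable def meanCauchy {N : ℕ} (μ : Fin N → Measure ℂ) (z : ℂ) : ℂ := ∑ i, cauchy (μ i) z

theorem dens_of {D R : ℝ} {μ : Measure ℂ} (h : Law D R μ) : Pool.Agent.N229.RL.Dens μ D R := by
  haveI := h.prob
  refine ⟨h.prob, ?_, ?_, h.density, h.support⟩
  · by_contra hD
    rw [not_le] at hD
    have h1 := h.density Set.univ MeasurableSet.univ
    rw [ENNReal.ofReal_eq_zero.2 hD.le, zero_mul, measure_univ] at h1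
    exact absurd h1 (by simp)
  · by_contra hR
    rw [not_le] at hR
    have h1 := h.support
    rw [Metric.closedBall_eq_empty.2 hR, Set.compl_empty, measure_univ] at h1
    exact one_ne_zero h1

theorem hyperbolic_of {N : ℕ} {a : ℂ} {z : Fin N → ℂ}
    (hT : Pool.Agent.W751.CD.Hyp (C a * Pool.Agent.W751.CD.P z)) : Hyperbolic (withRoots a z) := by
  intro c hc
  rcases hT c hc with h | ⟨x, h1, h2, h3⟩
  · exact Or.inl h
  · refine Or.inr ⟨1, one_pos, x, h1, ?_, ?_⟩
    · rw [Function.iterate_one]; exact h2
    · simp only [one_mul]; exact h3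

theorem meanLog_eq {N : ℕ} (μ : Fin N → Measure ℂ) (a z : ℂ) :
    Pool.Agent.N229.RL.MU μ Pool.Agent.N229.RL.one a z = meanLog μ a z := by
  unfold Pool.Agent.N229.RL.MU meanLog Pool.Agent.N229.RL.one
  simp [Pool.Agent.N229.RL.UU, potential]

theorem meanCauchy_eq {N : ℕ} (μ : Fin N → Measure ℂ) (z : ℂ) :
    Pool.Agent.N229.RL.MG μ Pool.Agent.N229.RL.one z = meanCauchy μ z := by
  unfold Pool.Agent.N229.RL.MG meanCauchy Pool.Agent.N229.RL.one
  simp [Pool.Agent.N229.RL.GG, cauchy]

/-- (1) Let `R`, `D`, `Λ` and `κ > 0` be given. There is a constant `K` such that for every degree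
`N ≥ 2`, all laws `μ 1, …, μ N` of density at most `D` on the disc `|z| ≤ R` and all leading
coefficients `a` with `|log |a|| ≤ Λ N` the following holds. Suppose that `κ N ≤ |meanLog z|` or
`κ N ≤ |meanCauchy z|` for all `z` in the disc `|z| ≤ R` (quantitatively: zero is a regular value of
the mean of `log |T|`) and that `κ N ≤ |meanLog 0|`. Then the polynomial with leading coefficient
`a` and independent roots of the laws `μ i` is hyperbolic outside an event of probability at most
`K (log N) ^ 4 / N`.

(2) Let `μ` be any compactly supported law of bounded density on the plane, `t` a real number and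
suppose that `t + potential μ` does not vanish at the origin and has no zero at which its gradient
vanishes. Then there is `K` such that for all `N ≥ 2` and all `a` of modulus `exp (t N)` the
polynomial with leading coefficient `a` and `N` independent roots of the law `μ` is hyperbolic
outside an event of probability at most `K (log N) ^ 4 / N`. For `t = 0` these are the monic
polynomials. -/
theorem result :
    (∀ R D κ Λ : ℝ, 0 < κ → ∃ K : ℝ, 0 < K ∧ ∀ N : ℕ, 2 ≤ N →
      ∀ (μ : Fin N → Measure ℂ) (a : ℂ), (∀ i, Law D R (μ i)) → a ≠ 0 →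
        |Real.log ‖a‖| ≤ Λ * N →
        (∀ z : ℂ, ‖z‖ ≤ R → κ * N ≤ |meanLog μ a z| ∨ κ * N ≤ ‖meanCauchy μ z‖) →
        κ * N ≤ |meanLog μ a 0| →
        Measure.pi μ {z | ¬ Hyperbolic (withRoots a z)} ≤
          ENNReal.ofReal (K * Real.log N ^ 4 / N)) ∧
    (∀ (μ : Measure ℂ) (D R t : ℝ), Law D R μ → t + potential μ 0 ≠ 0 →
      (∀ z : ℂ, t + potential μ z = 0 → cauchy μ z ≠ 0) →
      ∃ K : ℝ, 0 < K ∧ ∀ N : ℕ, 2 ≤ N → ∀ a : ℂ, ‖a‖ = Real.exp (t * N) →
        Measure.pi (fun _ : Fin N => μ) {z | ¬ Hyperbolic (withRoots a z)} ≤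
          ENNReal.ofReal (K * Real.log N ^ 4 / N)) := by
  constructor
  · intro R D κ Λ hκ
    obtain ⟨K, hK, h⟩ := Pool.Agent.N229.RL.general R D κ Λ hκ
    refine ⟨K, hK, fun N hN μ a hμ ha hΛ hreg h0 => ?_⟩
    refine (measure_mono ?_).trans (h N hN μ a (fun i => dens_of (hμ i)) ha hΛ (fun z hz => ?_) ?_)
    · exact fun z hz h1 => hz (hyperbolic_of h1)
    · rw [meanLog_eq, meanCauchy_eq]
      exact hreg z hz
    · rw [meanLog_eq]
      exact h0
  · intro μ D R t hμ h0 hreg
    obtain ⟨K, hK, h⟩ := Pool.Agent.N229.RL.iid (t := t) (dens_of hμ) h0 hreg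
    refine ⟨K, hK, fun N hN a ha => (measure_mono ?_).trans (h N hN a ha)⟩
    exact fun z hz h1 => hz (hyperbolic_of h1)

end Pool.Agent.Results.MP_28f8a1_an.IndependentRoots
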